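import Mathlib
import Pool.Agent.Q147.Reflexive

/-!
# MP_f24352_gt : a closed `G_δ`-subgroup of a precompact abelian group that is not
`N`-characterized
-/

noncomputable section

namespace Pool.Agent.Results.MP_f24352_gt.GdeltaNotCharacterized

open Set Topology

/-- The circle group `ℝ/ℤ`. -/
abbrev T : Type := AddCircle (1 : ℝ)

/-- `X` is totally bounded: for every neighbourhood `U` of `0` there is a finite set `E` with
`E + U = X`. -/
def TotallyBoundedGroup (X : Type) [AddCommGroup X] [TopologicalSpace X] : Prop :=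
  ∀ U ∈ 𝓝 (0 : X), ∃ E : Set X, E.Finite ∧ ∀ x : X, ∃ a ∈ E, ∃ u ∈ U, x = a + u

/-- The subgroup `F` is `N`-characterized: it is the annihilator of a countable set of continuous
characters `X → ℝ/ℤ`. -/
def NCharacterized {X : Type} [AddCommGroup X] [TopologicalSpace X] (F : AddSubgroup X) : Prop :=
  ∃ B : Set (X →ₜ+ T), B.Countable ∧ (F : Set X) = {x | ∀ χ ∈ B, χ x = 0}

instance : Fact (Nat.Prime 2) := ⟨Nat.prime_two⟩

/-- A Hamel basis of `(ZMod 2)^ℕ`. -/
abbrev bas := Module.Basis.ofVectorSpace (ZMod 2) (ℕ → ZMod 2)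

/-- The index set of the Hamel basis. -/
abbrev J : Type := Module.Basis.ofVectorSpaceIndex (ZMod 2) (ℕ → ZMod 2)

/-- The group: direct sum of the finitely supported sequences and of all sequences. -/
def X : Type := (ℕ →₀ ZMod 2) × (ℕ → ZMod 2)

instance : AddCommGroup X := inferInstanceAs (AddCommGroup ((ℕ →₀ ZMod 2) × (ℕ → ZMod 2)))

/-- The homomorphism to `(ZMod 2)^ℕ`: `(f, y) ↦ f + c(y)`, where `c(y)` is constant with value
`y k` on the `k`-th block of a partition of `ℕ` into infinite blocks. -/
def i : X →+ (ℕ → ZMod 2) where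
  toFun x := fun n => x.1 n + x.2 n.unpair.1
  map_zero' := by funext n; exact add_zero _
  map_add' x y := by
    funext n
    change (x.1 + y.1) n + (x.2 + y.2) n.unpair.1 = (x.1 n + x.2 n.unpair.1) +
      (y.1 n + y.2 n.unpair.1)
    rw [Finsupp.add_apply, Pi.add_apply]
    ring

/-- The Hamel coordinates of the second component. -/
def h : X →+ (J → ZMod 2) where
  toFun x := fun b => bas.repr x.2 b
  map_zero' := by
    funext b
    change bas.repr 0 b = 0
    rw [map_zero]; rfl
  map_add' x y := by
    funext b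
    change bas.repr (x.2 + y.2) b = bas.repr x.2 b + bas.repr y.2 b
    rw [map_add]; rfl

/-- The embedding in a compact group. -/
def Φ : X →+ (ℕ → ZMod 2) × (J → ZMod 2) := i.prod h

instance : TopologicalSpace X := TopologicalSpace.induced Φ inferInstance

instance : IsTopologicalAddGroup X := topologicalAddGroup_induced Φ

theorem continuous_i : Continuous (i : X → ℕ → ZMod 2) :=
  continuous_fst.comp (continuous_induced_dom (f := Φ))

theorem continuous_h : Continuous (h : X → J → ZMod 2) :=
  continuous_snd.comp (continuous_induced_dom (f := Φ))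

theorem h_eq_zero_iff (x : X) : h x = 0 ↔ x.2 = 0 := by
  constructor
  · intro hx
    have h1 : bas.repr x.2 = 0 := Finsupp.ext fun b => congrFun hx b
    simpa using h1
  · intro hx
    funext b
    change bas.repr x.2 b = 0
    rw [hx, map_zero]; rfl

theorem i_injective : Function.Injective i := by
  rw [injective_iff_map_eq_zero]
  intro x hx
  have h0 : ∀ n, x.1 n + x.2 n.unpair.1 = 0 := fun n => congrFun hx n
  have h2 : x.2 = 0 := by
    funext k
    -- a point of the block `k` outside the support of `x.1`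
    obtain ⟨m, hm⟩ : ∃ m : ℕ, x.1 (Nat.pair k m) = 0 := by
      by_contra hcon
      push Not at hcon
      have hinj : Function.Injective fun m : ℕ => Nat.pair k m := fun a b hab => by
        simpa using hab
      have h3 : Set.range (fun m : ℕ => Nat.pair k m) ⊆ (x.1.support : Set ℕ) := by
        rintro _ ⟨m, rfl⟩
        exact Finset.mem_coe.2 (Finsupp.mem_support_iff.2 (hcon m))
      exact (Set.infinite_range_of_injective hinj) (x.1.support.finite_toSet.subset h3)
    have h4 := h0 (Nat.pair k m)
    rw [hm, Nat.unpair_pair, zero_add] at h4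
    exact h4
  have h1 : x.1 = 0 := by
    ext n
    have := h0 n
    rw [h2] at this
    simpa using this
  exact Prod.ext h1 h2

theorem Φ_injective : Function.Injective Φ := fun _ _ hxy =>
  i_injective (congrArg Prod.fst hxy)

instance : T2Space X := T2Space.of_injective_continuous Φ_injective continuous_induced_dom

theorem totallyBounded : TotallyBoundedGroup X :=
  Pool.Agent.Q147.Reflexive.precompact_of_isInducing Φ ⟨rfl⟩

/-- The subgroup. -/
def F : AddSubgroup X where
  carrier := {x | x.2 = 0}
  zero_mem' := rfl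
  add_mem' := by
    intro a b ha hb
    change a.2 + b.2 = 0
    rw [show a.2 = 0 from ha, show b.2 = 0 from hb, add_zero]
  neg_mem' := by
    intro a ha
    change -a.2 = 0
    rw [show a.2 = 0 from ha, neg_zero]

theorem isClosed_F : IsClosed (F : Set X) := by
  have : (F : Set X) = h ⁻¹' {0} := by
    ext x
    exact (h_eq_zero_iff x).symm
  rw [this]
  exact isClosed_singleton.preimage continuous_h

/-- The closed pieces of the complement. -/
def piece (f : ℕ →₀ ZMod 2) (n : ℕ) : Set X := {x | x.1 = f ∧ x.2 n = 1}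

theorem isClosed_piece (f : ℕ →₀ ZMod 2) (n : ℕ) : IsClosed (piece f n) := by
  let C : Set (ℕ → ZMod 2) := (fun (y : ℕ → ZMod 2) (m : ℕ) => f m + y m.unpair.1) ''
    {y | y n = 1}
  have hC : IsCompact C := by
    refine IsCompact.image ?_ ?_
    · have h1 : IsClosed {y : ℕ → ZMod 2 | y n = 1} :=
        isClosed_eq (continuous_apply n) continuous_const
      exact h1.isCompact
    · refine continuous_pi fun m => ?_
      exact (continuous_of_discreteTopology (f := fun a : ZMod 2 => f m + a)).comp
        (continuous_apply m.unpair.1)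
  have h1 : piece f n = i ⁻¹' C := by
    ext x
    constructor
    · rintro ⟨h1, h2⟩
      refine ⟨x.2, h2, ?_⟩
      rw [← h1]; rfl
    · rintro ⟨y, hy, hyx⟩
      have h3 : i (f, y) = i x := hyx
      have h4 := i_injective h3
      rw [← h4]
      exact ⟨rfl, hy⟩
  rw [h1]
  exact hC.isClosed.preimage continuous_i

theorem isGδ_F : IsGδ (F : Set X) := by
  have h1 : (F : Set X) = ⋂ p : (ℕ →₀ ZMod 2) × ℕ, (piece p.1 p.2)ᶜ := by
    ext x
    rw [Set.mem_iInter]
    constructor
    · rintro hx p ⟨-, h2⟩
      have h3 : x.2 = 0 := hx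
      rw [h3] at h2
      exact zero_ne_one h2
    · intro hx
      change x.2 = 0
      funext n
      by_contra hne
      have h4 : ∀ a : ZMod 2, a ≠ 0 → a = 1 := by decide
      exact hx (x.1, n) ⟨rfl, h4 _ hne⟩
  rw [h1]
  exact IsGδ.iInter_of_isOpen fun p => (isClosed_piece p.1 p.2).isOpen_compl

/-- In `ℝ/ℤ`, an element of order at most two of norm less than `1/4` is zero. -/
theorem eq_zero_of_small (t : T) (h2 : t + t = 0) (hs : ‖t‖ < 1 / 4) : t = 0 := by
  by_contra hne
  have h3 : ‖t‖ = 1 / 2 := by
    induction t using QuotientAddGroup.induction_on with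
    | H r =>
      have h4 : ∃ n : ℤ, (n : ℝ) = r + r := by
        have : ((r + r : ℝ) : AddCircle (1 : ℝ)) = 0 := by
          rw [AddCircle.coe_add]; exact h2
        rw [AddCircle.coe_eq_zero_iff] at this
        obtain ⟨n, hn⟩ := this
        exact ⟨n, by simpa using hn⟩
      obtain ⟨n, hn⟩ := h4
      have hr : r = n / 2 := by linarith
      subst hr
      rcases Int.even_or_odd n with ⟨k, rfl⟩ | ⟨k, rfl⟩
      · exfalso
        apply hne
        have : (((k + k : ℤ) : ℝ) / 2 : ℝ) = k := by push_cast; ring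
        rw [this]
        change (((k : ℤ) : ℝ) : AddCircle (1 : ℝ)) = 0
        rw [AddCircle.coe_eq_zero_iff]
        exact ⟨k, by simp⟩
      · change ‖((((2 * k + 1 : ℤ) : ℝ) / 2 : ℝ) : AddCircle (1 : ℝ))‖ = 1 / 2
        rw [AddCircle.norm_eq]
        have h5 : (((2 * k + 1 : ℤ) : ℝ) / 2 : ℝ) = k + 1 / 2 := by push_cast; ring
        rw [h5]
        have h6 : round (1⁻¹ * ((k : ℝ) + 1 / 2)) = k + 1 := by
          rw [inv_one, one_mul, round_eq, Int.floor_eq_iff]
          push_cast
          constructor <;> linarith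
        rw [h6]
        push_cast
        rw [show (k : ℝ) + 1 / 2 - (k + 1) * 1 = -(1 / 2) by ring, abs_neg]
        norm_num
  linarith

theorem add_self (x : X) : x + x = 0 := by
  have h2 : ∀ a : ZMod 2, a + a = 0 := by decide
  refine Prod.ext ?_ ?_
  · change x.1 + x.1 = 0
    ext n
    exact h2 _
  · change x.2 + x.2 = 0
    funext n
    exact h2 _

/-- A character vanishing on `F` kills all elements with vanishing Hamel coordinates in some
finite set. -/
theorem char_finite (χ : X →ₜ+ T) (hF : ∀ x ∈ F, χ x = 0) :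
    ∃ S : Finset J, ∀ x : X, (∀ b ∈ S, bas.repr x.2 b = 0) → χ x = 0 := by
  classical
  have hU : IsOpen {x : X | ‖χ x‖ < 1 / 4} :=
    isOpen_lt (continuous_norm.comp χ.continuous_toFun) continuous_const
  obtain ⟨V, hV, hVe⟩ := isOpen_induced_iff.1 hU
  have h0 : Φ 0 ∈ V := by
    have : (0 : X) ∈ Φ ⁻¹' V := by
      rw [hVe]
      change ‖χ 0‖ < 1 / 4
      rw [map_zero, norm_zero]; norm_num
    exact this
  have hVn : V ∈ 𝓝 (Φ 0) := hV.mem_nhds h0
  rw [show Φ 0 = ((0 : ℕ → ZMod 2), (0 : J → ZMod 2)) from map_zero Φ, nhds_prod_eq,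
    Filter.mem_prod_iff] at hVn
  obtain ⟨A, hA, B, hB, hAB⟩ := hVn
  obtain ⟨A', hA'A, hA', hA0⟩ := mem_nhds_iff.1 hA
  obtain ⟨B', hB'B, hB', hB0⟩ := mem_nhds_iff.1 hB
  obtain ⟨K, u, hu, hsubK⟩ := isOpen_pi_iff.1 hA' _ hA0
  obtain ⟨S, w, hw, hsubS⟩ := isOpen_pi_iff.1 hB' _ hB0
  have key : ∀ x : X, (∀ n ∈ K, i x n = 0) → (∀ b ∈ S, h x b = 0) → χ x = 0 := by
    intro x h1 h2
    have h3 : x ∈ Φ ⁻¹' V := by
      apply hAB
      refine ⟨hA'A (hsubK ?_), hB'B (hsubS ?_)⟩
      · intro n hn
        change i x n ∈ u n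
        rw [h1 n hn]
        exact (hu n hn).2
      · intro b hb
        change h x b ∈ w b
        rw [h2 b hb]
        exact (hw b hb).2
    rw [hVe] at h3
    refine eq_zero_of_small _ ?_ h3
    rw [← map_add, add_self, map_zero]
  refine ⟨S, fun x hx => ?_⟩
  -- correct `x` by an element of `F`
  let f : ℕ →₀ ZMod 2 := Finsupp.onFinset K (fun n => if n ∈ K then i x n else 0) (by
    intro n hn
    by_contra hnK
    exact hn (if_neg hnK))
  let z : X := (f, 0)
  have hz : z ∈ F := rfl
  have h1 : χ (x - z) = 0 := by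
    apply key
    · intro n hn
      rw [map_sub]
      change i x n - (f n + (0 : ZMod 2)) = 0
      have : f n = i x n := by
        change (if n ∈ K then i x n else 0) = i x n
        rw [if_pos hn]
      rw [this, add_zero, sub_self]
    · intro b hb
      change bas.repr (x.2 - 0) b = 0
      rw [sub_zero]
      exact hx b hb
  have h2 : χ x = χ (x - z) + χ z := by rw [← map_add, sub_add_cancel]
  rw [h2, h1, hF z hz, add_zero]

theorem uncountable_J : ¬ Countable J := by
  intro hJ
  have h1 : Countable (ℕ → ZMod 2) := by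
    have : Countable (J →₀ ZMod 2) := inferInstance
    exact bas.repr.injective.countable
  classical
  have h4 : Function.Injective (fun s : Set ℕ => (fun n => if n ∈ s then 1 else 0 : ℕ → ZMod 2)) := by
    intro s s' hs
    ext n
    have := congrFun hs n
    by_cases h1 : n ∈ s <;> by_cases h2 : n ∈ s' <;> simp_all
  have h5 : Countable (Set ℕ) := h4.countable
  obtain ⟨f, hf⟩ := exists_surjective_nat (Set ℕ)
  exact Function.cantor_surjective f hf

theorem not_NCharacterized : ¬ NCharacterized F := by
  classical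
  rintro ⟨B, hB, hFB⟩
  have hF : ∀ χ ∈ B, ∀ x ∈ F, χ x = 0 := by
    intro χ hχ x hx
    have h1 : x ∈ (F : Set X) := hx
    rw [hFB] at h1
    exact h1 χ hχ
  have hS : ∀ χ : X →ₜ+ T, ∃ S : Finset J, χ ∈ B →
      ∀ x : X, (∀ b ∈ S, bas.repr x.2 b = 0) → χ x = 0 := by
    intro χ
    by_cases hχ : χ ∈ B
    · obtain ⟨S, hS⟩ := char_finite χ (hF χ hχ)
      exact ⟨S, fun _ => hS⟩
    · exact ⟨∅, fun h => absurd h hχ⟩
  choose S hS using hS
  -- a basis element outside all the finite sets
  have hc : (⋃ χ ∈ B, (S χ : Set J)).Countable := hB.biUnion fun χ _ => (S χ).countable_toSet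
  obtain ⟨b, hb⟩ : ∃ b, b ∉ ⋃ χ ∈ B, (S χ : Set J) := by
    by_contra hcon
    push Not at hcon
    apply uncountable_J
    rw [← Set.countable_univ_iff]
    exact hc.mono fun b _ => hcon b
  let x : X := (0, bas b)
  have hx : x ∈ (F : Set X) := by
    rw [hFB]
    intro χ hχ
    apply hS χ hχ
    intro b' hb'
    change bas.repr (bas b) b' = 0
    rw [Module.Basis.repr_self, Finsupp.single_apply, if_neg]
    rintro rfl
    exact hb (Set.mem_biUnion hχ hb')
  have h1 : bas b = 0 := hx
  exact bas.ne_zero b h1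

/-- There is a precompact (totally bounded Hausdorff) abelian group with a closed `G_δ`-subgroup
that is not `N`-characterized. -/
theorem result : ∃ (X : Type) (_ : AddCommGroup X) (_ : TopologicalSpace X),
    IsTopologicalAddGroup X ∧ T2Space X ∧ TotallyBoundedGroup X ∧
    ∃ F : AddSubgroup X, IsClosed (F : Set X) ∧ IsGδ (F : Set X) ∧ ¬ NCharacterized F :=
  ⟨X, inferInstance, inferInstance, inferInstance, inferInstance, totallyBounded, F, isClosed_F,
    isGδ_F, not_NCharacterized⟩

end Pool.Agent.Results.MP_f24352_gt.GdeltaNotCharacterized
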